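import Mathlib
import Pool.Agent.Helper65.SL.Base

/-! Module TRC of project SL: the functional `pf` is locally a continuous function of the point. -/

set_option maxSynthPendingDepth 3
set_option linter.unusedSectionVars false
set_option linter.deprecated false
set_option linter.unusedVariables false

namespace Pool.Agent.Helper13.SL

open Filter Topology
open scoped ContDiff Manifold
open Pool.Agent.Helper65.SL Pool.Agent.Helper23.Ric

variable {E : Type*} [NormedAddCommGroup E] [NormedSpace ℝ E] [FiniteDimensional ℝ E]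
variable {G : E → E →L[ℝ] E →L[ℝ] ℝ} {ψ : E → E} {z : E}

theorem riem_add_mid (h : GoodAt G z) (u v v' w : E) :
    riem G z u (v + v') w = riem G z u v w + riem G z u v' w := by
  simp only [riem, chris_add_left, map_add, chris_add_right]
  have : fderiv ℝ (fun y => chris G y v w + chris G y v' w) z =
      fderiv ℝ (fun y => chris G y v w) z + fderiv ℝ (fun y => chris G y v' w) z :=
    fderiv_fun_add (differentiableAt_chris h v w) (differentiableAt_chris h v' w)
  rw [this, ContinuousLinearMap.add_apply]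
  abel

theorem riem_smul_mid (h : GoodAt G z) (c : ℝ) (u v w : E) :
    riem G z u (c • v) w = c • riem G z u v w := by
  simp only [riem, chris_smul_left, map_smul, chris_smul_right]
  have : fderiv ℝ (fun y => c • chris G y v w) z =
      c • fderiv ℝ (fun y => chris G y v w) z :=
    fderiv_fun_const_smul (differentiableAt_chris h v w) c
  rw [this, ContinuousLinearMap.smul_apply]
  simp only [smul_sub, smul_add]

theorem riem_add_last (h : GoodAt G z) (u v w w' : E) :
    riem G z u v (w + w') = riem G z u v w + riem G z u v w' := by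
  simp only [riem, chris_add_right]
  have e1 : fderiv ℝ (fun y => chris G y v w + chris G y v w') z =
      fderiv ℝ (fun y => chris G y v w) z + fderiv ℝ (fun y => chris G y v w') z :=
    fderiv_fun_add (differentiableAt_chris h v w) (differentiableAt_chris h v w')
  have e2 : fderiv ℝ (fun y => chris G y u w + chris G y u w') z =
      fderiv ℝ (fun y => chris G y u w) z + fderiv ℝ (fun y => chris G y u w') z :=
    fderiv_fun_add (differentiableAt_chris h u w) (differentiableAt_chris h u w')
  rw [e1, e2, ContinuousLinearMap.add_apply, ContinuousLinearMap.add_apply]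
  abel

theorem riem_smul_last (h : GoodAt G z) (c : ℝ) (u v w : E) :
    riem G z u v (c • w) = c • riem G z u v w := by
  simp only [riem, chris_smul_right]
  have e1 : fderiv ℝ (fun y => c • chris G y v w) z =
      c • fderiv ℝ (fun y => chris G y v w) z :=
    fderiv_fun_const_smul (differentiableAt_chris h v w) c
  have e2 : fderiv ℝ (fun y => c • chris G y u w) z =
      c • fderiv ℝ (fun y => chris G y u w) z :=
    fderiv_fun_const_smul (differentiableAt_chris h u w) c
  rw [e1, e2, ContinuousLinearMap.smul_apply, ContinuousLinearMap.smul_apply]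
  simp only [smul_sub, smul_add]

/-- the bilinear form behind `pf` -/
noncomputable def bf (h : GoodAt G z) (θ : E → ℝ) (a c : ℝ) : E →ₗ[ℝ] E →ₗ[ℝ] ℝ :=
  LinearMap.mk₂ ℝ (fun u v => ricci G z u v - a * hess θ G z u v
      - c * (fderiv ℝ θ z u * fderiv ℝ θ z v))
    (fun u u' v => by
      simp only [ricci, hess, riem_add_mid h, map_add, chris_add_left,
        ContinuousLinearMap.add_apply, Finset.sum_add_distrib]
      ring)
    (fun t u v => by
      simp only [ricci, hess, riem_smul_mid h, map_smul, chris_smul_left,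
        ContinuousLinearMap.smul_apply, smul_eq_mul, ← Finset.mul_sum]
      ring)
    (fun u v v' => by
      simp only [ricci, hess, riem_add_last h, map_add, chris_add_right,
        Finset.sum_add_distrib]
      ring)
    (fun t u v => by
      simp only [ricci, hess, riem_smul_last h, map_smul, chris_smul_right,
        smul_eq_mul, ← Finset.mul_sum]
      ring)

theorem bf_apply (h : GoodAt G z) (θ : E → ℝ) (a c : ℝ) (u v : E) :
    bf h θ a c u v = ricci G z u v - a * hess θ G z u v
      - c * (fderiv ℝ θ z u * fderiv ℝ θ z v) := rfl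

/-- the coordinates as continuous linear forms -/
noncomputable def cl (l : Fin (Module.finrank ℝ E)) : E →L[ℝ] ℝ :=
  LinearMap.toContinuousLinearMap ((Module.finBasis ℝ E).coord l)

theorem cl_apply (l : Fin (Module.finrank ℝ E)) (u : E) :
    cl l u = (Module.finBasis ℝ E).coord l u := rfl

theorem inv_frame {m : ℕ} (hm : m = Module.finrank ℝ E) {B : E →L[ℝ] E →L[ℝ] ℝ}
    (hs : ∀ v w, B v w = B w v) (hp : ∀ v, v ≠ 0 → 0 < B v v) {e : Fin m → E}
    (he : IsOrtho B e) (l : E →L[ℝ] ℝ) : B.inverse l = ∑ i, l (e i) • e i := by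
  symm
  apply eq_inv hp
  intro u
  obtain ⟨b, hb, hc⟩ := ortho_basis he hm
  have hu : u = ∑ i, B u (e i) • e i := by
    have := b.sum_repr u
    rw [← this]
    rw [this]
    refine (b.sum_repr u).symm.trans ?_
    refine Finset.sum_congr rfl fun i _ => ?_
    rw [← hc, hb]
    rfl
  have h1 : l u = ∑ i, B u (e i) * l (e i) := by
    conv_lhs => rw [hu]
    rw [map_sum]
    simp only [map_smul, smul_eq_mul]
  rw [h1, map_sum, ContinuousLinearMap.sum_apply]
  refine Finset.sum_congr rfl fun i _ => ?_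
  rw [map_smul, ContinuousLinearMap.smul_apply, smul_eq_mul, hs, mul_comm]

theorem trace_frame {m : ℕ} (hm : m = Module.finrank ℝ E) {B : E →L[ℝ] E →L[ℝ] ℝ}
    (hs : ∀ v w, B v w = B w v) (hp : ∀ v, v ≠ 0 → 0 < B v v) {e : Fin m → E}
    (he : IsOrtho B e) (Q : E →ₗ[ℝ] E →ₗ[ℝ] ℝ) :
    ∑ i, Q (e i) (e i) = ∑ k, ∑ l, Q (Module.finBasis ℝ E k) (Module.finBasis ℝ E l) *
      (Module.finBasis ℝ E).coord k (B.inverse (cl l)) := by
  have h1 : ∀ i, Q (e i) (e i) = ∑ k, ∑ l, (Module.finBasis ℝ E).coord k (e i) *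
      (Module.finBasis ℝ E).coord l (e i) *
      Q (Module.finBasis ℝ E k) (Module.finBasis ℝ E l) := by
    intro i
    have h2 : e i = ∑ k, (Module.finBasis ℝ E).coord k (e i) • Module.finBasis ℝ E k :=
      ((Module.finBasis ℝ E).sum_repr (e i)).symm
    have h3 : ∀ x, Q x (e i) = ∑ l, (Module.finBasis ℝ E).coord l (e i) *
        Q x (Module.finBasis ℝ E l) := by
      intro x
      conv_lhs => rw [h2]
      rw [map_sum]
      simp only [map_smul, smul_eq_mul]
    have h4 : ∀ y, Q (e i) y = ∑ k, (Module.finBasis ℝ E).coord k (e i) *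
        Q (Module.finBasis ℝ E k) y := by
      intro y
      conv_lhs => rw [h2]
      rw [map_sum, LinearMap.sum_apply]
      simp only [map_smul, LinearMap.smul_apply, smul_eq_mul]
    rw [h4]
    refine Finset.sum_congr rfl fun k _ => ?_
    rw [h3, Finset.mul_sum]
    refine Finset.sum_congr rfl fun l _ => ?_
    ring
  simp only [h1]
  rw [Finset.sum_comm]
  refine Finset.sum_congr rfl fun k _ => ?_
  rw [Finset.sum_comm]
  refine Finset.sum_congr rfl fun l _ => ?_
  rw [inv_frame hm hs hp he, map_sum, Finset.mul_sum]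
  refine Finset.sum_congr rfl fun i _ => ?_
  rw [map_smul, cl_apply, smul_eq_mul]
  ring

theorem contAt_chris_var (h : GoodAt G z) {x x' : E → E} (hx : ContinuousAt x z)
    (hx' : ContinuousAt x' z) : ContinuousAt (fun y => chris G y (x y) (x' y)) z := by
  have hd : ContinuousAt (fderiv ℝ G) z :=
    (h.smooth.fderiv_right (m := 1) (by norm_num)).continuousAt
  have hi : ContinuousAt (fun y => (G y).inverse) z := (contDiffAt_inverse h).continuousAt
  have h1 : ContinuousAt (fun y => fderiv ℝ G y (x y) (x' y)) z :=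
    (hd.clm_apply hx).clm_apply hx'
  have h2 : ContinuousAt (fun y => fderiv ℝ G y (x' y) (x y)) z :=
    (hd.clm_apply hx').clm_apply hx
  have h3 : ContinuousAt (fun y => ((fderiv ℝ G y).flip (x y)).flip (x' y)) z := by
    have e1 : ContinuousAt (fun y => (fderiv ℝ G y).flip) z :=
      ContinuousAt.comp (g := fun L : E →L[ℝ] E →L[ℝ] (E →L[ℝ] ℝ) => L.flip)
        (ContinuousLinearMap.flipₗᵢ ℝ E E (E →L[ℝ] ℝ)).continuous.continuousAt hd
    have e2 : ContinuousAt (fun y => (fderiv ℝ G y).flip (x y)) z := e1.clm_apply hx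
    have e3 : ContinuousAt (fun y => ((fderiv ℝ G y).flip (x y)).flip) z :=
      ContinuousAt.comp (g := fun L : E →L[ℝ] E →L[ℝ] ℝ => L.flip)
        (ContinuousLinearMap.flipₗᵢ ℝ E E ℝ).continuous.continuousAt e2
    exact e3.clm_apply hx'
  have h12 : ContinuousAt (fun y => fderiv ℝ G y (x y) (x' y) +
      fderiv ℝ G y (x' y) (x y)) z := h1.add h2
  have h123 : ContinuousAt (fun y => fderiv ℝ G y (x y) (x' y) +
      fderiv ℝ G y (x' y) (x y) - ((fderiv ℝ G y).flip (x y)).flip (x' y)) z := h12.sub h3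
  have h4 : ContinuousAt (fun y => (1 / 2 : ℝ) • (fderiv ℝ G y (x y) (x' y) +
      fderiv ℝ G y (x' y) (x y) - ((fderiv ℝ G y).flip (x y)).flip (x' y))) z :=
    Filter.Tendsto.const_smul h123 (1 / 2 : ℝ)
  exact hi.clm_apply h4

theorem contAt_riem (h : GoodAt G z) (u v w : E) :
    ContinuousAt (fun y => riem G y u v w) z := by
  have hc : ∀ a b : E, ContinuousAt (fun y => chris G y a b) z := fun a b =>
    contAt_chris_var h continuousAt_const continuousAt_const
  have hf : ∀ a b c : E, ContinuousAt (fun y => fderiv ℝ (fun y => chris G y a b) y c) z := by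
    intro a b c
    have := ((contDiffAt_chris h a b).fderiv_right (m := 0) (by norm_num)).continuousAt
    exact this.clm_apply continuousAt_const
  unfold riem
  exact (((hf v w u).sub (hf u w v)).add
    (contAt_chris_var h continuousAt_const (hc v w))).sub
    (contAt_chris_var h continuousAt_const (hc u w))

theorem contAt_ricci (h : GoodAt G z) (v w : E) : ContinuousAt (fun y => ricci G y v w) z := by
  unfold ricci
  refine tendsto_finset_sum _ fun i _ => ?_
  have h1 : ContinuousAt (fun y => cl i (riem G y (Module.finBasis ℝ E i) v w)) z :=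
    (cl i).continuous.continuousAt.comp (contAt_riem h _ v w)
  exact h1

section param

variable {E₁ : Type*} [NormedAddCommGroup E₁] [NormedSpace ℝ E₁]
  {θ : E₁ → E → ℝ}

theorem fderiv_slice {p : E₁ × E} (hθ : DifferentiableAt ℝ (fun p : E₁ × E => θ p.1 p.2) p) :
    fderiv ℝ (θ p.1) p.2 = (fderiv ℝ (fun p : E₁ × E => θ p.1 p.2) p).comp
      (ContinuousLinearMap.inr ℝ E₁ E) := by
  have h1 : HasFDerivAt (fun y : E => (p.1, y)) (ContinuousLinearMap.inr ℝ E₁ E) p.2 :=
    hasFDerivAt_prodMk_right p.1 p.2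
  have h2 : HasFDerivAt (fun p : E₁ × E => θ p.1 p.2)
    (fderiv ℝ (fun p : E₁ × E => θ p.1 p.2) p) (p.1, p.2) := hθ.hasFDerivAt
  exact (HasFDerivAt.comp (g := fun p : E₁ × E => θ p.1 p.2) p.2 h2 h1).fderiv

theorem fderiv2_slice {p : E₁ × E} (hθ : ContDiffAt ℝ 2 (fun p : E₁ × E => θ p.1 p.2) p)
    (u v : E) :
    fderiv ℝ (fderiv ℝ (θ p.1)) p.2 u v =
      fderiv ℝ (fderiv ℝ (fun p : E₁ × E => θ p.1 p.2)) p (0, u) (0, v) := by
  have hev : ∀ᶠ q in 𝓝 (p.1, p.2), ContDiffAt ℝ 2 (fun p : E₁ × E => θ p.1 p.2) q :=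
    hθ.eventually (by simp)
  have hcont : Tendsto (fun y : E => (p.1, y)) (𝓝 p.2) (𝓝 (p.1, p.2)) :=
    (continuous_const.prodMk continuous_id).tendsto _
  have h0 : (fderiv ℝ (θ p.1)) =ᶠ[𝓝 p.2] fun y =>
      (fderiv ℝ (fun p : E₁ × E => θ p.1 p.2) (p.1, y)).comp (ContinuousLinearMap.inr ℝ E₁ E) := by
    filter_upwards [hcont.eventually hev] with y hy
    exact fderiv_slice (p := (p.1, y)) (hy.differentiableAt (by simp))
  have h1 : HasFDerivAt (fun y : E => (p.1, y)) (ContinuousLinearMap.inr ℝ E₁ E) p.2 :=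
    hasFDerivAt_prodMk_right p.1 p.2
  have hd : DifferentiableAt ℝ (fderiv ℝ (fun p : E₁ × E => θ p.1 p.2)) (p.1, p.2) :=
    (hθ.fderiv_right (m := 1) (by norm_num)).differentiableAt (by simp)
  have h2 : HasFDerivAt (fun y : E => fderiv ℝ (fun p : E₁ × E => θ p.1 p.2) (p.1, y))
      ((fderiv ℝ (fderiv ℝ (fun p : E₁ × E => θ p.1 p.2)) (p.1, p.2)).comp
        (ContinuousLinearMap.inr ℝ E₁ E)) p.2 :=
    HasFDerivAt.comp (g := fderiv ℝ (fun p : E₁ × E => θ p.1 p.2)) p.2 hd.hasFDerivAt h1
  have h3 := h2.clm_comp (hasFDerivAt_const (ContinuousLinearMap.inr ℝ E₁ E) p.2)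
  rw [h0.fderiv_eq, h3.fderiv]
  simp

end param

/-- MODULE TRC (joint continuity of `pf`). -/
theorem trc {E₁ : Type*} [NormedAddCommGroup E₁] [NormedSpace ℝ E₁] [FiniteDimensional ℝ E₁]
    {m : ℕ} (hm : m = Module.finrank ℝ E) {θ : E₁ → E → ℝ} {w₁ : E₁} {z₁ : E}
    (hG : GoodAt G z₁) (hθ : ContDiffAt ℝ 2 (fun p : E₁ × E => θ p.1 p.2) (w₁, z₁)) :
    ∃ T : E₁ × E → ℝ, ContinuousAt T (w₁, z₁) ∧
      ∀ᶠ p in 𝓝 (w₁, z₁), ∀ e : Fin m → E, IsOrtho (G p.2) e → pf m (θ p.1) G p.2 e = T p := by
  set a : ℝ := 2 * ((m : ℝ) - 1) with ha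
  set c : ℝ := ((m : ℝ) - 1) * ((m : ℝ) - 2) with hc
  have hsnd : Tendsto (fun p : E₁ × E => p.2) (𝓝 (w₁, z₁)) (𝓝 z₁) :=
    continuous_snd.tendsto _
  have hsndc : ContinuousAt (fun p : E₁ × E => p.2) (w₁, z₁) := hsnd
  have hev : ∀ᶠ q in 𝓝 (w₁, z₁), ContDiffAt ℝ 2 (fun p : E₁ × E => θ p.1 p.2) q :=
    hθ.eventually (by simp)
  refine ⟨fun p => ∑ k, ∑ l, (ricci G p.2 (Module.finBasis ℝ E k) (Module.finBasis ℝ E l)
      - a * hess (θ p.1) G p.2 (Module.finBasis ℝ E k) (Module.finBasis ℝ E l)
      - c * (fderiv ℝ (θ p.1) p.2 (Module.finBasis ℝ E k) *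
        fderiv ℝ (θ p.1) p.2 (Module.finBasis ℝ E l))) *
      (Module.finBasis ℝ E).coord k ((G p.2).inverse (cl l)), ?_, ?_⟩
  · refine tendsto_finset_sum _ fun k _ => tendsto_finset_sum _ fun l _ => ?_
    set u := Module.finBasis ℝ E k with hu
    set v := Module.finBasis ℝ E l with hv
    have c1 : ContinuousAt (fun p : E₁ × E => ricci G p.2 u v) (w₁, z₁) :=
      ContinuousAt.comp (g := fun y => ricci G y u v) (contAt_ricci hG u v) hsndc
    have c2 : ContinuousAt (fun p : E₁ × E => fderiv ℝ (θ p.1) p.2) (w₁, z₁) := by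
      have h1 : ContinuousAt (fun p : E₁ × E => (fderiv ℝ (fun p : E₁ × E => θ p.1 p.2) p).comp
          (ContinuousLinearMap.inr ℝ E₁ E)) (w₁, z₁) :=
        (hθ.fderiv_right (m := 1) (by norm_num)).continuousAt.clm_comp continuousAt_const
      refine h1.congr ?_
      filter_upwards [hev] with p hp
      exact (fderiv_slice (hp.differentiableAt (by simp))).symm
    have c3 : ContinuousAt (fun p : E₁ × E => fderiv ℝ (fderiv ℝ (θ p.1)) p.2 u v) (w₁, z₁) := by
      have h0 : ContinuousAt (fderiv ℝ (fderiv ℝ (fun p : E₁ × E => θ p.1 p.2))) (w₁, z₁) :=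
        ((hθ.fderiv_right (m := 1) (by norm_num)).fderiv_right (m := 0) (by norm_num)).continuousAt
      have h1 : ContinuousAt (fun p : E₁ × E =>
          fderiv ℝ (fderiv ℝ (fun p : E₁ × E => θ p.1 p.2)) p (0, u) (0, v)) (w₁, z₁) :=
        (h0.clm_apply continuousAt_const).clm_apply continuousAt_const
      refine h1.congr ?_
      filter_upwards [hev] with p hp
      exact (fderiv2_slice hp u v).symm
    have c4 : ContinuousAt (fun p : E₁ × E => chris G p.2 u v) (w₁, z₁) :=
      ContinuousAt.comp (g := fun y => chris G y u v)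
        (contAt_chris_var hG continuousAt_const continuousAt_const) hsndc
    have c5 : ContinuousAt (fun p : E₁ × E => hess (θ p.1) G p.2 u v) (w₁, z₁) :=
      c3.sub (c2.clm_apply c4)
    have c6 : ContinuousAt (fun p : E₁ × E => fderiv ℝ (θ p.1) p.2 u) (w₁, z₁) :=
      c2.clm_apply continuousAt_const
    have c7 : ContinuousAt (fun p : E₁ × E => fderiv ℝ (θ p.1) p.2 v) (w₁, z₁) :=
      c2.clm_apply continuousAt_const
    have c8 : ContinuousAt (fun y => (G y).inverse) z₁ := (contDiffAt_inverse hG).continuousAt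
    have c9 : ContinuousAt (fun p : E₁ × E => (G p.2).inverse) (w₁, z₁) :=
      ContinuousAt.comp (g := fun y => (G y).inverse) c8 hsndc
    have c10 : ContinuousAt (fun p : E₁ × E => cl k ((G p.2).inverse (cl l))) (w₁, z₁) :=
      ContinuousAt.comp (g := fun y => cl k y) (cl k).continuous.continuousAt
        (c9.clm_apply continuousAt_const)
    exact ((c1.sub (c5.const_mul a)).sub ((c6.mul c7).const_mul c)).mul c10
  · filter_upwards [hsnd.eventually hG.eventually] with p hp e he
    have h1 := trace_frame hm hp.symm.self_of_nhds hp.pos.self_of_nhds he (bf hp (θ p.1) a c)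
    simp only [bf_apply] at h1
    rw [← h1, pf]
    refine Finset.sum_congr rfl fun i _ => ?_
    rw [pow_two]

end Pool.Agent.Helper13.SL
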